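import Pool.Agent.V11238.MG.HCov

/-!
# Groups covered by the conjugates of a finite nonabelian simple proper subgroup
-/

set_option autoImplicit false

open Subgroup Pool.Agent.V11238.MG

namespace Pool.Agent.Results.MP_ca9d64_al.SimpleCountable

/-- `(G, H)` is an example for Q1: `H` is a proper subgroup, finite and nonabelian simple, and its
conjugates cover `G`. -/
def Example (G : Type) [Group G] (H : Subgroup G) : Prop :=
  Finite H ∧ IsSimpleGroup H ∧ (∃ a b : H, a * b ≠ b * a) ∧ H ≠ ⊤ ∧
    ∀ g : G, ∃ x : G, x⁻¹ * g * x ∈ H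

/-- Every example is an infinite simple group of the same exponent as `H` with at most as many
conjugacy classes as `H`, and there is a countable example with an isomorphic subgroup. -/
theorem result (G : Type) [Group G] (H : Subgroup G) (h : Example G H) :
    IsSimpleGroup G ∧ Infinite G ∧ Monoid.exponent G = Monoid.exponent H ∧
    Finite (ConjClasses G) ∧ Nat.card (ConjClasses G) ≤ Nat.card (ConjClasses H) ∧
    ∃ (L : Type) (_ : Group L) (K : Subgroup L), Example L K ∧ Countable L ∧
      Nonempty (K ≃* H) := by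
  obtain ⟨hfin, hs, hab, hne, hcov⟩ := h
  have hc : CovAb H := by
    intro g
    obtain ⟨x, hx⟩ := hcov g
    exact ⟨x⁻¹, by rwa [inv_inv]⟩
  obtain ⟨h1, h2⟩ := hc.classes
  refine ⟨hc.isSimple hs, hc.infinite hne, hc.exponent, h1, h2, ?_⟩
  obtain ⟨L, hHL, hL, hcL, hneL⟩ := cov_countable (Set.toFinite (H : Set G)).countable hc hne
  let e : H.subgroupOf L ≃* H := subgroupOfEquivOfLe hHL
  refine ⟨L, inferInstance, H.subgroupOf L, ⟨?_, ?_, ?_, hneL, ?_⟩, hL, ⟨e⟩⟩
  · exact Finite.of_equiv _ e.symm.toEquiv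
  · exact e.isSimpleGroup_congr.2 hs
  · obtain ⟨a, b, hab⟩ := hab
    refine ⟨e.symm a, e.symm b, fun h => hab ?_⟩
    rw [← map_mul, ← map_mul] at h
    exact e.symm.injective h
  · intro g
    obtain ⟨x, hx⟩ := hcL g
    exact ⟨x⁻¹, by rwa [inv_inv]⟩

end Pool.Agent.Results.MP_ca9d64_al.SimpleCountable
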